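import Pool.Agent.Run7.h302.TwoSided

/-!
# The large noise regime, outside a window around `m = 2 n`

If `|m - 2 n| ≥ 2 √m · √((9 √(min(n, m - n)) + 40) log(m + 1) + 3/σ²)`, then each of the three
pivoting rules (and every other way of choosing improving neighbours) has smoothed complexity at
most `2`, the supremum being over nonzero `z`.
-/

namespace Pool.Agent.Results.MP_ab1b6f_lc.LargeNoise

open Run7.h302

theorem result (R : Rule) (m n : ℕ) (σ : ℝ) (hσ : 0 < σ)
    (hm : 4 * (m : ℝ) * ((9 * Real.sqrt ((min n (m - n) : ℕ) : ℝ) + 40) * Real.log (m + 1) +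
      3 / σ ^ 2) ≤ ((m : ℝ) - 2 * n) ^ 2) :
    smoothedComplexityNZ R m n σ ≤ 2 :=
  smoothedComplexityNZ_le_two R m n hσ hm

end Pool.Agent.Results.MP_ab1b6f_lc.LargeNoise
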