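import Pool.Agent.Run7.h302.Subexp

/-!
# Subexponential smoothed complexity of the greedy, steepest-edge and random pivoting rules

For each of the three rules (and for the adversarial rule, hence for every way of choosing
improving neighbours) the smoothed complexity `C(m, n, σ)` is at most
`(1 + 1/σ)³ (M + 1)^(9 √N + 27)`, where `N = ⌈log_(m+1) (m choose n)⌉ ≤ min(n, m - n)` and
`M = min(m, 65536 (n + 1 + 1/σ²))`.
-/

namespace Pool.Agent.Results.MP_ab1b6f_lc.SubexpPivots

open Run7.h302

theorem result (R : Rule) (m n : ℕ) (σ : ℝ) (hσ : 0 < σ) :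
    smoothedComplexity R m n σ ≤ ENNReal.ofReal ((1 + 1 / σ) ^ 3 *
      (min (m : ℝ) (65536 * (n + 1 + 1 / σ ^ 2)) + 1) ^
        (9 * Real.sqrt (Nat.clog (m + 1) (m.choose n) : ℝ) + 27)) :=
  smoothedComplexity_le_uniform R m n hσ

end Pool.Agent.Results.MP_ab1b6f_lc.SubexpPivots
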